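import Mathlib
import Pool.Agent.Y325.GR.Stm

/-!
# Induction over the subgroups of a finite abelian 2-group
-/

set_option autoImplicit false

open ExteriorAlgebra Pool.Agent.H89R3.Gr Pool.Agent.Y325.GR

noncomputable section

namespace Pool.Agent.Y994.GR

universe u v

lemma e_ne_zero {F : Type*} [Field F] (i : ℕ) : (e i : E F) ≠ 0 := by
  intro h
  have h1 := (ι_eq_zero_iff (R := F) (Finsupp.single i (1:F))).mp h
  have h3 : (1:F) = 0 := by
    have := congrArg (fun f : ℕ →₀ F => f i) h1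
    simpa using this
  exact one_ne_zero h3

/-- the group of diagonal automorphisms -/
def DgSub (F : Type*) [Field F] : Subgroup (E F ≃ₐ[F] E F) where
  carrier := {κ | Dg κ}
  one_mem' := fun i => ⟨1, by rw [one_smul]; rfl⟩
  mul_mem' := by
    intro a b ha hb i
    obtain ⟨c, hc⟩ := ha i
    obtain ⟨d, hd⟩ := hb i
    refine ⟨d * c, ?_⟩
    change a (b (e i)) = _
    rw [hd, map_smul, hc, smul_smul]
  inv_mem' := by
    intro a ha i
    obtain ⟨c, hc⟩ := ha i
    have hc0 : c ≠ 0 := by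
      rintro rfl
      rw [zero_smul] at hc
      exact e_ne_zero (F := F) i ((map_eq_zero_iff a a.injective).mp hc)
    refine ⟨c⁻¹, ?_⟩
    apply a.injective
    have h1 : a (a⁻¹ (e i)) = e i := by
      change (a * a⁻¹) (e i) = e i
      rw [mul_inv_cancel]; rfl
    rw [h1, map_smul, hc, smul_smul, inv_mul_cancel₀ hc0, one_smul]

lemma pow_e {F : Type*} [Field F] {κ : E F ≃ₐ[F] E F} {i : ℕ} {c : F} (h : κ (e i) = c • e i) (n : ℕ) :
    (κ ^ n) (e i) = c ^ n • (e i : E F) := by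
  induction n with
  | zero => simp
  | succ n ih =>
    rw [pow_succ]
    change (κ ^ n) (κ (e i)) = _
    rw [h, map_smul, ih, smul_smul, pow_succ, mul_comm]

theorem t_ACT (F : Type u) [Field F] (h2 : (2:F) ≠ 0) (hS : StepStmt F) : ActStmt.{u, v} F := by
  intro r ζ hζ H _ _ hexp ρ
  have key : ∀ K : Subgroup H, (∃ Ψ : E F ≃ₐ[F] E F, ∀ h ∈ K, Dg (Ψ⁻¹ * ρ h * Ψ)) →
      (∃ Ψ : E F ≃ₐ[F] E F, ∀ h ∈ (⊤ : Subgroup H), Dg (Ψ⁻¹ * ρ h * Ψ)) := by
    intro K
    induction K using WellFoundedGT.induction with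
    | ind K ih =>
    intro hK
    by_cases hKt : K = ⊤
    · rw [← hKt]; exact hK
    obtain ⟨Ψ, hΨ⟩ := hK
    -- an element outside of `K` whose square is in `K`
    obtain ⟨h, hh, hhh⟩ : ∃ h : H, h ∉ K ∧ h * h ∈ K := by
      obtain ⟨h0, hh0⟩ : ∃ h0 : H, h0 ∉ K := by
        by_contra hc
        push Not at hc
        exact hKt (by rw [eq_top_iff]; intro x _; exact hc x)
      have hex : ∃ j : ℕ, h0 ^ (2 ^ j) ∈ K := ⟨r, by rw [hexp]; exact K.one_mem⟩
      classical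
      obtain ⟨j, hj, hmin⟩ : ∃ j : ℕ, h0 ^ (2 ^ j) ∈ K ∧ ∀ i < j, h0 ^ (2 ^ i) ∉ K :=
        ⟨Nat.find hex, Nat.find_spec hex, fun i hi => Nat.find_min hex hi⟩
      rcases j with _ | j
      · exact absurd (by simpa using hj) hh0
      · refine ⟨h0 ^ (2 ^ j), hmin j (Nat.lt_succ_self j), ?_⟩
        rw [← pow_add]
        have : 2 ^ j + 2 ^ j = 2 ^ (j + 1) := by rw [pow_succ]; ring
        rw [this]; exact hj
    -- the conjugated action
    set c : H →* (E F ≃ₐ[F] E F) := (MulAut.conj Ψ⁻¹).toMonoidHom.comp ρ with hc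
    have hcc : ∀ g, c g = Ψ⁻¹ * ρ g * Ψ := fun g => by
      change Ψ⁻¹ * ρ g * Ψ⁻¹⁻¹ = _
      rw [inv_inv]
    have hr : r ≠ 0 := by
      rintro rfl
      apply hh
      have := hexp h
      rw [pow_zero, pow_one] at this
      rw [this]; exact K.one_mem
    obtain ⟨Ψ', hΨ1, hΨ2⟩ := hS {κ | ∃ g ∈ K, κ = c g} (c h)
      (by rintro κ ⟨g, hg, rfl⟩; rw [hcc]; exact hΨ g hg)
      (by rintro κ ⟨g, hg, rfl⟩; rw [← map_mul, ← map_mul, mul_comm])
      ⟨h * h, hhh, by rw [map_mul]⟩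
      (by
        intro i
        have hd : Dg (c (h * h)) := by rw [hcc]; exact hΨ _ hhh
        obtain ⟨d, hd⟩ := hd i
        have h1 := pow_e hd (2 ^ (r - 1))
        have h3 : c (h * h) ^ (2 ^ (r - 1)) = 1 := by
          rw [← map_pow, ← pow_two, ← pow_mul, ← pow_succ', Nat.sub_add_cancel (Nat.one_le_iff_ne_zero.mpr hr), hexp, map_one]
        rw [h3] at h1
        have h4 : d ^ (2 ^ (r - 1)) = 1 := by
          have h5 : (d ^ (2 ^ (r - 1)) - 1) • (e i : E F) = 0 := by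
            rw [sub_smul, one_smul, ← h1]; exact sub_self _
          rcases smul_eq_zero.mp h5 with h6 | h6
          · exact sub_eq_zero.mp h6
          · exact absurd h6 (e_ne_zero i)
        have hζ2 : IsPrimitiveRoot (ζ ^ 2) (2 ^ (r - 1)) := by
          apply hζ.pow (by positivity)
          rw [← pow_succ', Nat.sub_add_cancel (Nat.one_le_iff_ne_zero.mpr hr)]
        obtain ⟨k, -, hk⟩ := hζ2.eq_pow_of_pow_eq_one h4
        refine ⟨ζ ^ k, ?_⟩
        rw [← map_mul, hd, ← hk, ← pow_mul, ← pow_add]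
        congr 2
        ring)
    apply ih (K ⊔ Subgroup.zpowers h)
    · refine lt_of_le_of_ne le_sup_left ?_
      intro heq
      apply hh
      rw [heq]
      exact (le_sup_right : Subgroup.zpowers h ≤ _) (Subgroup.mem_zpowers h)
    · refine ⟨Ψ * Ψ', ?_⟩
      have hle : K ⊔ Subgroup.zpowers h ≤ (DgSub F).comap ((MulAut.conj Ψ'⁻¹).toMonoidHom.comp c) := by
        apply sup_le
        · intro g hg
          change Dg (Ψ'⁻¹ * c g * Ψ'⁻¹⁻¹)
          rw [inv_inv]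
          exact hΨ1 _ ⟨g, hg, rfl⟩
        · rw [Subgroup.zpowers_le]
          change Dg (Ψ'⁻¹ * c h * Ψ'⁻¹⁻¹)
          rw [inv_inv]
          exact hΨ2
      intro g hg
      have h1 : Dg (Ψ'⁻¹ * c g * Ψ'⁻¹⁻¹) := hle hg
      rw [inv_inv, hcc] at h1
      have : (Ψ * Ψ')⁻¹ * ρ g * (Ψ * Ψ') = Ψ'⁻¹ * (Ψ⁻¹ * ρ g * Ψ) * Ψ' := by group
      rw [this]; exact h1
  obtain ⟨Ψ, hΨ⟩ := key ⊥ ⟨1, by
    intro h hh
    rw [Subgroup.mem_bot] at hh
    rw [hh, map_one]
    simp only [inv_one, mul_one]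
    exact (DgSub F).one_mem⟩
  exact ⟨Ψ, fun h => hΨ h (Subgroup.mem_top h)⟩

end Pool.Agent.Y994.GR
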